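import Pool.Agent.helper54.XP.SpecG

/-!
# Project xp:, module CMM (copy of helper49/V3/CMM.lean)
-/

set_option autoImplicit false

open Complex Metric Set Filter Topology MeasureTheory XP
open V3S (UF)

noncomputable section

namespace XPG

theorem CMM (hVLM : VLM_stmt) (hAFF : XPL.AFF_stmt) (hGBA : GBA_stmt) : CMM_stmt := by
  intro n Cq C' C'' D hG ρ hρ ε hε
  obtain ⟨C₀, hC₀⟩ := (hVLM n Cq C' C'' D hG).2.2.2.2 ρ hρ
  obtain ⟨C, hCdef⟩ : ∃ C, C = max C₀ 1 := ⟨_, rfl⟩
  have hC1 : 1 ≤ C := by rw [hCdef]; exact le_max_right _ _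
  have hCpos : 0 < C := by linarith
  have hC₀C : C₀ ≤ C := by rw [hCdef]; exact le_max_left _ _
  have hε' : 0 < ε / (2 * C) := by positivity
  have haff := (hAFF n Cq D hG.hl hG.st).2 (ρ + 1) (by linarith) (ε / (2 * C)) hε'
  have hlam : ∀ᶠ m in UF, ‖(D m).lam‖ * C < 1 := by
    have h1 : Tendsto (fun m => ‖(D m).lam‖) atTop (𝓝 0) := by
      have := hG.sa.lim.norm
      rwa [norm_zero] at this
    have h2 : ∀ᶠ m in atTop, ‖(D m).lam‖ < 1 / C :=
      h1.eventually_lt_const (by positivity)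
    have h3 : ∀ᶠ m in UF, ‖(D m).lam‖ < 1 / C := h2.filter_mono V3S.UF_le
    filter_upwards [h3] with m hm
    rwa [lt_div_iff₀ hCpos] at hm
  filter_upwards [hC₀, haff, hlam] with m hv hA hl j hj x hx
  obtain ⟨-, -, -, hadd, -, -, -, -, -, -, -, hlam0, -, -, -, hFk, hdiff, -, -, -, -⟩ :=
    hGBA n Cq (D m) (hG.ok m)
  have hj' : j ≤ (D m).K := by rw [hG.hK m]; exact hj
  have hvx : ‖(D m).v x‖ ≤ C := (hv x hx).trans hC₀C
  have hx0 : ‖x‖ < ρ := by simpa using hx
  -- the increment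
  set h : ℂ := (D m).lam * (D m).v x with hh
  have hnorm : ‖h‖ ≤ ‖(D m).lam‖ * C := by
    rw [hh, norm_mul]
    exact mul_le_mul_of_nonneg_left hvx (norm_nonneg _)
  have hx1 : x ∈ ball (0 : ℂ) (ρ + 1) := by
    rw [mem_ball_zero_iff]; linarith
  have hy1 : x + h ∈ ball (0 : ℂ) (ρ + 1) := by
    rw [mem_ball_zero_iff]
    calc ‖x + h‖ ≤ ‖x‖ + ‖h‖ := norm_add_le _ _
      _ < ρ + 1 := by linarith
  have hcomm : (D m).F (D m).k ((D m).F j x) = (D m).F j (x + h) := by
    rw [← hadd, add_comm (D m).k j, hadd, hFk x]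
  have hvF : (D m).v ((D m).F j x) = ((D m).F j (x + h) - (D m).F j x) / (D m).lam := by
    unfold Dat.v
    rw [hcomm]
  -- mean value inequality
  have hmv : ‖((D m).F j (x + h) - deriv ((D m).F j) x * (x + h)) -
      ((D m).F j x - deriv ((D m).F j) x * x)‖ ≤
      (2 * (ε / (2 * C)) * ‖(D m).A j‖) * ‖(x + h) - x‖ := by
    apply Convex.norm_image_sub_le_of_norm_deriv_le (𝕜 := ℂ)
      (f := fun y => (D m).F j y - deriv ((D m).F j) x * y) (s := ball (0 : ℂ) (ρ + 1))
    · intro y _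
      exact (hdiff j).differentiableAt.sub (by fun_prop)
    · intro y hy
      have hd : deriv (fun y => (D m).F j y - deriv ((D m).F j) x * y) y =
          deriv ((D m).F j) y - deriv ((D m).F j) x := by
        have h1 : HasDerivAt (fun y => (D m).F j y - deriv ((D m).F j) x * y)
            (deriv ((D m).F j) y - deriv ((D m).F j) x * 1) y :=
          ((hdiff j).differentiableAt.hasDerivAt).sub ((hasDerivAt_id y).const_mul _)
        rw [h1.deriv, mul_one]
      rw [hd]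
      have e1 := hA j hj' y hy
      have e2 := hA j hj' x hx1
      calc ‖deriv ((D m).F j) y - deriv ((D m).F j) x‖
          = ‖(deriv ((D m).F j) y - (D m).A j) - (deriv ((D m).F j) x - (D m).A j)‖ := by
            congr 1; ring
        _ ≤ ‖deriv ((D m).F j) y - (D m).A j‖ + ‖deriv ((D m).F j) x - (D m).A j‖ :=
            norm_sub_le _ _
        _ ≤ 2 * (ε / (2 * C)) * ‖(D m).A j‖ := by linarith
    · exact convex_ball _ _
    · exact hx1
    · exact hy1
  have e3 : ((D m).F j (x + h) - deriv ((D m).F j) x * (x + h)) -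
      ((D m).F j x - deriv ((D m).F j) x * x) =
      (D m).lam * ((D m).v ((D m).F j x) - deriv ((D m).F j) x * (D m).v x) := by
    rw [hvF, hh]
    field_simp
    ring
  rw [e3, norm_mul, add_sub_cancel_left] at hmv
  have hlpos : 0 < ‖(D m).lam‖ := norm_pos_iff.mpr hlam0
  have hfin : ‖(D m).lam‖ * ‖(D m).v ((D m).F j x) - deriv ((D m).F j) x * (D m).v x‖ ≤
      ‖(D m).lam‖ * (ε * ‖(D m).A j‖) := by
    calc ‖(D m).lam‖ * ‖(D m).v ((D m).F j x) - deriv ((D m).F j) x * (D m).v x‖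
        ≤ (2 * (ε / (2 * C)) * ‖(D m).A j‖) * ‖h‖ := hmv
      _ ≤ (2 * (ε / (2 * C)) * ‖(D m).A j‖) * (‖(D m).lam‖ * C) :=
          mul_le_mul_of_nonneg_left hnorm (by positivity)
      _ = ‖(D m).lam‖ * (ε * ‖(D m).A j‖) := by
          field_simp
  exact le_of_mul_le_mul_left hfin hlpos

end XPG
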